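import Pool.Agent.TH997.AC.Basic

/-!
# The reduction to acyclic groups
-/

set_option autoImplicit false

namespace Pool.Agent.TH997.AC

open CategoryTheory

variable {T : AssemblyTheory}

theorem nat (n : ℤ) {X Y : GrpCat.{0}} (f : X ⟶ Y) (x : (T.K n).obj X) :
    ((T.μ n).app Y).hom (((T.K n).map f).hom x) = ((T.A n).map f).hom (((T.μ n).app X).hom x) := by
  simp

theorem mapK_comp (n : ℤ) {X Y Z : GrpCat.{0}} (f : X ⟶ Y) (g : Y ⟶ Z) (x : (T.K n).obj X) :
    ((T.K n).map g).hom (((T.K n).map f).hom x) = ((T.K n).map (f ≫ g)).hom x := by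
  rw [(T.K n).map_comp]; rfl

theorem mapA_comp (n : ℤ) {X Y Z : GrpCat.{0}} (f : X ⟶ Y) (g : Y ⟶ Z) (x : (T.A n).obj X) :
    ((T.A n).map g).hom (((T.A n).map f).hom x) = ((T.A n).map (f ≫ g)).hom x := by
  rw [(T.A n).map_comp]; rfl

theorem mapK_id (n : ℤ) {X : GrpCat.{0}} (f : X ⟶ X) (hf : f = 𝟙 X) (x : (T.K n).obj X) :
    ((T.K n).map f).hom x = x := by
  rw [hf, (T.K n).map_id]; rfl

theorem mapA_id (n : ℤ) {X : GrpCat.{0}} (f : X ⟶ X) (hf : f = 𝟙 X) (x : (T.A n).obj X) :
    ((T.A n).map f).hom x = x := by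
  rw [hf, (T.A n).map_id]; rfl

theorem one_hom_ext {X : GrpCat.{0}} (f g : one ⟶ X) : f = g := by
  ext x
  have hx : x = 1 := rfl
  rw [hx, map_one, map_one]

theorem to_one_ext {X : GrpCat.{0}} (f g : X ⟶ one) : f = g := by
  ext x

/-- `K n 1 → K n Z` is injective. -/
theorem unit_inj (n : ℤ) (Z : GrpCat.{0}) : Function.Injective ((T.K n).map (unit Z)).hom := by
  intro a b hab
  have h := congrArg ((T.K n).map (aug Z)).hom hab
  rwa [mapK_comp (f := unit Z), mapK_comp (f := unit Z), mapK_id n (unit Z ≫ aug Z) (to_one_ext _ _),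
    mapK_id n (unit Z ≫ aug Z) (to_one_ext _ _)] at h

/-- `K n 1 → K n Z` is surjective for acyclic `Z`. -/
theorem unit_surj (hP : AcyclicProducts T) {Z : GrpCat.{0}} (hZ : Acyclic Z) (n : ℤ) :
    Function.Surjective ((T.K n).map (unit Z)).hom := by
  intro z
  let inr : Z ⟶ prod one Z := GrpCat.ofHom (MonoidHom.inr PUnit.{1} Z)
  let snd : prod one Z ⟶ Z := GrpCat.ofHom (MonoidHom.snd PUnit.{1} Z)
  let y : (T.K n).obj one := ((T.K n).map (fst one Z)).hom (((T.K n).map inr).hom z)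
  refine ⟨y, ?_⟩
  -- compare in `K n (1 × Z)`
  have hbij := hP one Z hZ n
  have h1 : ((T.K n).map inr).hom (((T.K n).map (unit Z)).hom y) = ((T.K n).map inr).hom z := by
    apply hbij.1
    rw [mapK_comp, mapK_comp]
    exact mapK_id n _ (to_one_ext _ _) y
  have h2 := congrArg ((T.K n).map snd).hom h1
  rw [mapK_comp (f := inr) (g := snd), mapK_comp (f := inr) (g := snd),
    mapK_id n (inr ≫ snd) (by ext; rfl), mapK_id n (inr ≫ snd) (by ext; rfl)] at h2
  exact h2

/-- If the assembly map of the acyclic group `Z` is surjective, then `A n Z` is the image of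
`A n 1`. -/
theorem reduced_of_surj (hP : AcyclicProducts T) {Z : GrpCat.{0}} (hZ : Acyclic Z) {n : ℤ}
    (h : T.Surj n Z) : T.Reduced n Z := by
  intro α
  obtain ⟨z, rfl⟩ := h α
  obtain ⟨x, rfl⟩ := unit_surj hP hZ n z
  exact ⟨((T.μ n).app one).hom x, (nat n (unit Z) x).symm⟩

/-- If `A n 1 → A n Z` is surjective, then elements of `A n Z` with trivial image in `A n 1` are
trivial. -/
theorem eq_of_aug {Z : GrpCat.{0}} {n : ℤ} (h : T.Reduced n Z) (α β : (T.A n).obj Z)
    (hab : ((T.A n).map (aug Z)).hom α = ((T.A n).map (aug Z)).hom β) : α = β := by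
  obtain ⟨a, rfl⟩ := h α
  obtain ⟨b, rfl⟩ := h β
  rw [mapA_comp, mapA_comp, mapA_id n (unit Z ≫ aug Z) (to_one_ext _ _),
    mapA_id n (unit Z ≫ aug Z) (to_one_ext _ _)] at hab
  rw [hab]

/-- Surjectivity in degree `n` for `Z` gives surjectivity in degree `n` for `G`, surjectivity in
degree `n + 1` for `Z` gives injectivity in degree `n` for `G`. -/
theorem controls (hP : AcyclicProducts T) (hM : MayerVietoris T) (hR : Resolutions T)
    (G : GrpCat.{0}) (hG : TorsionFree G) : ∃ Z : GrpCat.{0}, TorsionFree Z ∧ Acyclic Z ∧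
      ∀ n, (T.Reduced n Z → T.Surj n G) ∧ (T.Reduced (n + 1) Z → T.Inj n G) := by
  obtain ⟨Y, C, Z, p, e, j, k, hpo, he, hY, hC, hZ, hCa, hZa, hp, hYμ, hCμ⟩ := hR G hG
  refine ⟨Z, hZ, hZa, fun n => ?_⟩
  have hXt : TorsionFree (prod G C) := by
    rintro ⟨g, c⟩ m hm h
    have h1 : (g ^ m, c ^ m) = ((1 : G), (1 : C)) := h
    exact Prod.ext (hG g m hm (congrArg Prod.fst h1)) (hC c m hm (congrArg Prod.snd h1))
  have hf : Function.Injective (pair p e).hom := by
    intro a b hab
    exact he (congrArg Prod.snd hab)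
  obtain ⟨⟨d, hd, hdex⟩, hex⟩ := hM Y (prod G C) C Z (pair p e) e j k hpo hf he hXt hC n
  have hCr : T.Reduced n C := reduced_of_surj hP hCa (hCμ n).2
  -- `K n Y → K n (G × C)` is bijective
  have hcomp : pair p e ≫ fst G C = p := by ext; rfl
  have hKinj : Function.Injective ((T.K n).map (pair p e)).hom := by
    intro a b hab
    apply (hp n).1
    have := congrArg ((T.K n).map (fst G C)).hom hab
    rwa [mapK_comp, mapK_comp, hcomp] at this
  have hKsurj : Function.Surjective ((T.K n).map (pair p e)).hom := by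
    intro x
    obtain ⟨y, hy⟩ := (hp n).2 (((T.K n).map (fst G C)).hom x)
    refine ⟨y, (hP G C hCa n).1 ?_⟩
    rw [mapK_comp, hcomp, hy]
  have hret : inl G C ≫ fst G C = 𝟙 G := by ext; rfl
  constructor
  · -- surjectivity
    intro hr α
    -- surjectivity of `A n Y → A n (G × C)`
    let ξ : (T.A n).obj (prod G C) := ((T.A n).map (inl G C)).hom α
    obtain ⟨c, hc⟩ : ∃ c : (T.A n).obj C,
        ((T.A n).map (aug C)).hom c = ((T.A n).map (aug (prod G C))).hom ξ :=
      ⟨((T.A n).map (unit C)).hom (((T.A n).map (aug (prod G C))).hom ξ), by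
        rw [mapA_comp (f := unit C) (g := aug C)]; exact mapA_id n _ (to_one_ext _ _) _⟩
    have hjk : ((T.A n).map j).hom ξ = ((T.A n).map k).hom c := by
      refine eq_of_aug hr _ _ ?_
      rw [mapA_comp (f := j), mapA_comp (f := k), to_one_ext (j ≫ aug Z) (aug (prod G C)),
        to_one_ext (k ≫ aug Z) (aug C), hc]
    obtain ⟨y, hy, -⟩ := hex ξ c hjk
    obtain ⟨x, rfl⟩ := (hYμ n).2 y
    refine ⟨((T.K n).map (pair p e ≫ fst G C)).hom x, ?_⟩
    rw [nat, ← mapA_comp, hy, mapA_comp, mapA_id n _ hret]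
  · -- injectivity
    intro hr
    -- injectivity of `A n Y → A n (G × C)`
    have hAinj : ∀ y : (T.A n).obj Y, ((T.A n).map (pair p e)).hom y = 0 → y = 0 := by
      intro y hy
      have hey : ((T.A n).map e).hom y = 0 := by
        refine eq_of_aug hCr _ _ ?_
        rw [map_zero, mapA_comp, to_one_ext (e ≫ aug C) (pair p e ≫ aug (prod G C)), ← mapA_comp, hy,
          map_zero]
      obtain ⟨z, rfl⟩ := hdex y hy hey
      obtain ⟨a, rfl⟩ := hr z
      have := hd (((T.A (n + 1)).map (unit (prod G C))).hom a)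
      rwa [mapA_comp, one_hom_ext (unit (prod G C) ≫ j) (unit Z)] at this
    change Function.Injective ((T.μ n).app G).hom
    rw [injective_iff_map_eq_zero]
    intro x hx
    obtain ⟨y, hy⟩ := hKsurj (((T.K n).map (inl G C)).hom x)
    have h1 : ((T.μ n).app Y).hom y = 0 := by
      apply hAinj
      rw [← nat, hy, nat, hx, map_zero]
    have h2 : y = 0 := (hYμ n).1 (by rw [h1, map_zero])
    rw [h2, map_zero] at hy
    have h3 := congrArg ((T.K n).map (fst G C)).hom hy
    rw [mapK_comp, mapK_id n _ hret, map_zero] at h3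
    exact h3.symm

end Pool.Agent.TH997.AC
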