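import Mathlib.Algebra.Category.Grp.Basic
import Mathlib.CategoryTheory.Limits.Shapes.Pullback.IsPullback.Basic
import Mathlib.RepresentationTheory.Homological.GroupHomology.Basic

/-!
# Assembly maps and acyclic groups

`AssemblyTheory`: functors `K n` (homology of `BG` with coefficients in a spectrum) and `A n` (K-groups
or L-groups of the group ring) on the category of all groups, with natural assembly maps
`μ n : K n → A n`.
-/

set_option autoImplicit false

namespace Pool.Agent.TH997.AC

open CategoryTheory

/-- The homology groups `K n G = H_n(BG; E)`, the groups `A n G` (K-groups or L-groups of group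
rings), for `n : ℤ`, functors on the category of groups, and the natural assembly maps
`μ n G : K n G → A n G`. -/
structure AssemblyTheory where
  /-- the homology group `H_n(BG; E)` -/
  K : ℤ → GrpCat.{0} ⥤ AddCommGrpCat.{0}
  /-- the K-group or L-group of the group ring -/
  A : ℤ → GrpCat.{0} ⥤ AddCommGrpCat.{0}
  /-- the assembly map -/
  μ : ∀ n, K n ⟶ A n

/-- `1` is the only element of finite order. -/
def TorsionFree (G : GrpCat.{0}) : Prop := ∀ (g : G) (m : ℕ), 0 < m → g ^ m = 1 → g = 1

/-- All homology groups `H_m(G; ℤ)`, `m > 0`, vanish. -/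
def Acyclic (G : GrpCat.{0}) : Prop :=
  ∀ m : ℕ, 0 < m → Subsingleton (groupHomology (Rep.trivial ℤ G ℤ) m)

/-- the trivial group -/
abbrev one : GrpCat.{0} := GrpCat.of PUnit.{1}

/-- the homomorphism from the trivial group to `G` -/
abbrev unit (G : GrpCat.{0}) : one ⟶ G := GrpCat.ofHom (1 : PUnit.{1} →* G)

/-- the homomorphism from `G` to the trivial group -/
abbrev aug (G : GrpCat.{0}) : G ⟶ one := GrpCat.ofHom (1 : G →* PUnit.{1})

/-- the group `G × C` -/
abbrev prod (G C : GrpCat.{0}) : GrpCat.{0} := GrpCat.of (G × C)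

/-- the projection `G × C → G` -/
abbrev fst (G C : GrpCat.{0}) : prod G C ⟶ G := GrpCat.ofHom (MonoidHom.fst G C)

/-- the inclusion `G → G × C` -/
abbrev inl (G C : GrpCat.{0}) : G ⟶ prod G C := GrpCat.ofHom (MonoidHom.inl G C)

/-- the homomorphism `y ↦ (p y, e y)` from `Y` to `G × C` -/
abbrev pair {Y G C : GrpCat.{0}} (p : Y ⟶ G) (e : Y ⟶ C) : Y ⟶ prod G C :=
  GrpCat.ofHom (p.hom.prod e.hom)

variable (T : AssemblyTheory)

/-- The assembly map `μ n G : K n G → A n G` is injective. -/
def AssemblyTheory.Inj (n : ℤ) (G : GrpCat.{0}) : Prop := Function.Injective ((T.μ n).app G).hom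

/-- The assembly map `μ n G : K n G → A n G` is surjective. -/
def AssemblyTheory.Surj (n : ℤ) (G : GrpCat.{0}) : Prop := Function.Surjective ((T.μ n).app G).hom

/-- `A n G` is the image of `A n 1`, where `1` is the trivial subgroup of `G`. -/
def AssemblyTheory.Reduced (n : ℤ) (G : GrpCat.{0}) : Prop :=
  Function.Surjective ((T.A n).map (unit G)).hom

/-- For acyclic groups `C` the projections `G × C → G` induce isomorphisms `K n (G × C) → K n G`. -/
def AcyclicProducts : Prop :=
  ∀ G C : GrpCat.{0}, Acyclic C → ∀ n, Function.Bijective ((T.K n).map (fst G C)).hom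

/-- Mayer-Vietoris sequence of the amalgamated product `Z` of torsion-free groups `X` and `C` along a
common subgroup `Y` (embedded by `f : Y → X` and `e : Y → C`): a homomorphism
`∂ : A (n + 1) Z → A n Y` which vanishes on the image of `A (n + 1) X`, the exactness of
`A (n + 1) Z → A n Y → A n X ⊕ A n C` and of `A n Y → A n X ⊕ A n C → A n Z`. -/
def MayerVietoris : Prop :=
  ∀ (Y X C Z : GrpCat.{0}) (f : Y ⟶ X) (e : Y ⟶ C) (j : X ⟶ Z) (k : C ⟶ Z),
    IsPushout f e j k → Function.Injective f.hom → Function.Injective e.hom →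
    TorsionFree X → TorsionFree C → ∀ n : ℤ,
      (∃ d : (T.A (n + 1)).obj Z →+ (T.A n).obj Y,
        (∀ x : (T.A (n + 1)).obj X, d (((T.A (n + 1)).map j).hom x) = 0) ∧
        ∀ y : (T.A n).obj Y, ((T.A n).map f).hom y = 0 → ((T.A n).map e).hom y = 0 →
          ∃ z, d z = y) ∧
      ∀ (x : (T.A n).obj X) (c : (T.A n).obj C),
        ((T.A n).map j).hom x = ((T.A n).map k).hom c →
          ∃ y : (T.A n).obj Y, ((T.A n).map f).hom y = x ∧ ((T.A n).map e).hom y = c

/-- Every torsion-free group `G` has a resolution: torsion-free groups `Y` and `C`, whose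
assembly maps are bijective, with `C` acyclic, and homomorphisms `p : Y → G`, inducing isomorphisms
`K n Y → K n G`, and `e : Y → C`, injective, such that the amalgamated product `Z` of `G × C` and `C`
along `Y` (embedded by `(p, e)` and `e`) is torsion-free and acyclic. -/
def Resolutions : Prop :=
  ∀ G : GrpCat.{0}, TorsionFree G → ∃ (Y C Z : GrpCat.{0}) (p : Y ⟶ G) (e : Y ⟶ C)
    (j : prod G C ⟶ Z) (k : C ⟶ Z), IsPushout (pair p e) e j k ∧ Function.Injective e.hom ∧
      TorsionFree Y ∧ TorsionFree C ∧ TorsionFree Z ∧ Acyclic C ∧ Acyclic Z ∧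
      (∀ n, Function.Bijective ((T.K n).map p).hom) ∧
      (∀ n, T.Inj n Y ∧ T.Surj n Y) ∧ ∀ n, T.Inj n C ∧ T.Surj n C

/-- All assembly maps `μ n G`, `G` torsion-free, are bijective. -/
def AllBijective : Prop := ∀ G : GrpCat.{0}, TorsionFree G → ∀ n, T.Inj n G ∧ T.Surj n G

/-- All assembly maps `μ n G`, `G` torsion-free, are surjective. -/
def AllSurjective : Prop := ∀ G : GrpCat.{0}, TorsionFree G → ∀ n, T.Surj n G

/-- Homomorphisms `f` of torsion-free groups which induce isomorphisms of all homology groups `K n`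
induce isomorphisms of all groups `A n`. -/
def HomologyInvariant : Prop :=
  ∀ (X Y : GrpCat.{0}) (f : X ⟶ Y), TorsionFree X → TorsionFree Y →
    (∀ n, Function.Bijective ((T.K n).map f).hom) → ∀ n, Function.Bijective ((T.A n).map f).hom

/-- For all acyclic torsion-free groups `Z` the maps `A n 1 → A n Z` are surjective. -/
def AcyclicReduced : Prop :=
  ∀ Z : GrpCat.{0}, TorsionFree Z → Acyclic Z → ∀ n, T.Reduced n Z

end Pool.Agent.TH997.AC
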